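import Pool.Agent.H85.SC.Targets

/-!
# SC module CCA: arithmetic of the base four numbers `cc n`
-/

set_option autoImplicit false

namespace Pool.Agent.H24.SC

open Pool.Agent.H85.SC

theorem spread_eq (n : ℕ) : spread n = n % 2 + 4 * spread (n / 2) := by
  cases n with
  | zero => simp [spread]
  | succ n => rw [spread]

theorem spread_zero : spread 0 = 0 := by rw [spread]

theorem spread_split (a : ℕ) : ∀ n : ℕ, spread n = spread (n % 2 ^ a) + 4 ^ a * spread (n / 2 ^ a) := by
  induction a with
  | zero => intro n; simp [Nat.mod_one, spread_zero]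
  | succ a ih =>
    intro n
    have h1 := spread_eq n
    have h2 := ih (n / 2)
    have h3 := spread_eq (n % 2 ^ (a + 1))
    have e1 : n % 2 ^ (a + 1) % 2 = n % 2 := by
      rw [pow_succ]
      exact Nat.mod_mul_left_mod _ _ _
    have e2 : n % 2 ^ (a + 1) / 2 = n / 2 % 2 ^ a := by
      rw [pow_succ, Nat.mod_mul_left_div_self]
    have e3 : n / 2 / 2 ^ a = n / 2 ^ (a + 1) := by
      rw [Nat.div_div_eq_div_mul, pow_succ, mul_comm]
    rw [e1, e2] at h3
    rw [e3] at h2
    rw [h1, h3, h2, pow_succ]
    ring

theorem spread_one : spread 1 = 1 := by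
  rw [spread_eq]
  simp [spread_zero]

theorem spread_add (n a : ℕ) (h : n < 2 ^ a) : spread (n + 2 ^ a) = spread n + 4 ^ a := by
  rw [spread_split a (n + 2 ^ a)]
  have e1 : (n + 2 ^ a) % 2 ^ a = n := by
    rw [Nat.add_mod_right, Nat.mod_eq_of_lt h]
  have e2 : (n + 2 ^ a) / 2 ^ a = 1 := by
    rw [Nat.add_div_right _ (by positivity), Nat.div_eq_of_lt h]
  rw [e1, e2, spread_one, mul_one]

theorem spread_bound (a : ℕ) : ∀ n < 2 ^ a, 3 * spread n + 1 ≤ 4 ^ a := by
  induction a with
  | zero =>
    intro n hn
    have : n = 0 := by simpa using hn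
    simp [this, spread_zero]
  | succ a ih =>
    intro n hn
    have h1 := ih (n / 2) (by rw [pow_succ] at hn; omega)
    have h2 := spread_eq n
    have h3 : n % 2 < 2 := Nat.mod_lt _ (by norm_num)
    rw [pow_succ]
    omega

theorem spread_inj : ∀ n m : ℕ, spread n = spread m → n = m := by
  intro n
  induction n using Nat.strong_induction_on with
  | _ n ih =>
    intro m h
    rcases Nat.eq_zero_or_pos n with h0 | h0
    · subst h0
      rw [spread_zero] at h
      by_contra hm
      -- spread m > 0 for m > 0
      have key : ∀ k : ℕ, 0 < k → 0 < spread k := by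
        intro k
        induction k using Nat.strong_induction_on with
        | _ k ihk =>
          intro hk
          rw [spread_eq]
          rcases Nat.eq_zero_or_pos (k / 2) with h1 | h1
          · have : k = 1 := by omega
            subst this
            norm_num
          · have := ihk (k / 2) (by omega) h1
            omega
      have := key m (by omega)
      omega
    · rw [spread_eq n, spread_eq m] at h
      have h1 : n % 2 < 2 := Nat.mod_lt _ (by norm_num)
      have h2 : m % 2 < 2 := Nat.mod_lt _ (by norm_num)
      have h3 : n / 2 = m / 2 := ih (n / 2) (by omega) _ (by omega)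
      omega

theorem cca : T_CCA := by
  refine ⟨?_, ?_, ?_, ?_, ?_⟩
  · simp [cc, spread_zero]
  · intro n
    have h1 := spread_bound (Nat.size n) n (Nat.lt_size_self n)
    refine ⟨by unfold cc; positivity, ?_⟩
    unfold cc
    have h2 : 2 * spread n < 4 ^ Nat.size n := by omega
    exact_mod_cast h2
  · intro n a h
    unfold cc
    rw [spread_add n a h]
    push_cast
    ring
  · intro n m h
    unfold cc at h
    exact spread_inj n m (by omega)
  · intro n a
    unfold cc
    refine ⟨2 * (spread (n / 2 ^ a) : ℤ), ?_⟩
    have h := spread_split a n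
    rw [h]
    push_cast
    ring

end Pool.Agent.H24.SC
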