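import Pool.Agent.H85.SC.Targets

/-!
# Module DEC
-/

namespace Pool.Agent.H24.SC

open Pool.Agent.H85.SC

/-- sum of `wx` over a slot -/
theorem wx_slot (n i : ℕ) (hv : Valid n i) (w : ℂ) :
    ∑ z ∈ Finset.Ico (NN (slot n i) : ℤ) (2 * NN (slot n i)), wx n i z * w ^ z =
      ∑ z ∈ RS n i, wt n i z * w ^ z := by
  classical
  rw [RS, Finset.sum_filter]
  refine Finset.sum_congr rfl fun z hz => ?_
  obtain ⟨hz1, hz2⟩ := Finset.mem_Ico.mp hz
  by_cases hr : Reg n i z
  · rw [if_pos hr]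
    have hP : inP n i z := hr.2.2.2.1
    simp only [wx, wt, ind, if_pos hP, s1, s2, s3]
    push_cast
    ring
  · rw [if_neg hr]
    have : wx n i z = 0 := by
      by_cases hP : inP n i z
      · by_cases h0 : chi (lvl n i) 0 z = 0
        · simp [wx, h0]
        · by_cases h1 : chi (lvl n i) 1 z = 0
          · simp [wx, h1]
          · by_cases h2 : chi (lvl n i) 2 z = 0
            · simp [wx, h2]
            · exact absurd ⟨hv, hz1, hz2, hP, h0, h1, h2⟩ hr
      · simp [wx, ind, hP]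
    rw [this, zero_mul]

theorem lg_add {a k : ℕ} (hk : k < 2 ^ a) : lg (2 ^ a + k) = a := by
  unfold lg
  apply Nat.log_eq_of_pow_le_of_lt_pow
  · omega
  · rw [pow_succ]; omega

/-- reindexing of the stations -/
theorem stn_sum (S : Set ℕ) (M : ℕ) (W : ℕ → ℕ → ℂ) :
    ∑ p ∈ stn S M, W p.1 p.2 = ∑ n ∈ Finset.range M, ∑ k ∈ Finset.range M,
      open Classical in
      if n ∈ S then
        ∑ a ∈ (Finset.range M).filter (fun a => n < 2 ^ a ∧ k < 2 ^ a ∧ slot n (2 ^ a + k) < M),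
          W n (2 ^ a + k)
      else 0 := by
  classical
  have h1 : ∀ n k, (if n ∈ S then
        ∑ a ∈ (Finset.range M).filter (fun a => n < 2 ^ a ∧ k < 2 ^ a ∧ slot n (2 ^ a + k) < M),
          W n (2 ^ a + k)
      else 0) = ∑ a ∈ Finset.range M, if (n ∈ S ∧ n < 2 ^ a ∧ k < 2 ^ a ∧ slot n (2 ^ a + k) < M)
        then W n (2 ^ a + k) else 0 := by
    intro n k
    by_cases hn : n ∈ S
    · simp only [hn, if_true, true_and, Finset.sum_filter]
    · simp [hn]
  simp only [h1]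
  rw [← Finset.sum_product', ← Finset.sum_product', ← Finset.sum_filter]
  refine Finset.sum_nbij' (fun p => ((p.1, p.2 - 2 ^ lg p.2), lg p.2))
    (fun q => (q.1.1, 2 ^ q.2 + q.1.2)) ?_ ?_ ?_ ?_ ?_
  · rintro ⟨n, i⟩ hp
    simp only [stn, Finset.mem_filter, Finset.mem_product, Finset.mem_range] at hp ⊢
    obtain ⟨⟨hn, hi⟩, hS, hv, hs⟩ := hp
    have hi0 : i ≠ 0 := by have := hv.1; omega
    have h2 : 2 ^ lg i ≤ i := Nat.pow_log_le_self 2 hi0
    have h3 : i < 2 ^ (lg i + 1) := Nat.lt_pow_succ_log_self (by norm_num) i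
    rw [pow_succ] at h3
    have h4 : lg i < 2 ^ lg i := Nat.lt_two_pow_self
    have e : 2 ^ lg i + (i - 2 ^ lg i) = i := by omega
    refine ⟨⟨⟨hn, by omega⟩, by omega⟩, hS, hv.2, by omega, ?_⟩
    rw [e]; exact hs
  · rintro ⟨⟨n, k⟩, a⟩ hq
    simp only [stn, Finset.mem_filter, Finset.mem_product, Finset.mem_range] at hq ⊢
    obtain ⟨⟨⟨hn, hk⟩, ha⟩, hS, hna, hka, hs⟩ := hq
    have hsl : slot n (2 ^ a + k) = (2 ^ a + k) ^ 2 + n := rfl
    have h1 : 1 ≤ 2 ^ a := Nat.one_le_two_pow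
    have h2 : 2 ^ a + k ≤ (2 ^ a + k) ^ 2 := by nlinarith
    refine ⟨⟨hn, by omega⟩, hS, ⟨by omega, ?_⟩, hs⟩
    rw [lg_add hka]; exact hna
  · rintro ⟨n, i⟩ hp
    simp only [stn, Finset.mem_filter, Finset.mem_product, Finset.mem_range] at hp
    obtain ⟨⟨hn, hi⟩, hS, hv, hs⟩ := hp
    have hi0 : i ≠ 0 := by have := hv.1; omega
    have h2 : 2 ^ lg i ≤ i := Nat.pow_log_le_self 2 hi0
    simp only [Prod.mk.injEq, true_and]
    omega
  · rintro ⟨⟨n, k⟩, a⟩ hq
    simp only [Finset.mem_filter, Finset.mem_product, Finset.mem_range] at hq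
    obtain ⟨⟨⟨hn, hk⟩, ha⟩, hS, hna, hka, hs⟩ := hq
    simp only [lg_add hka, Prod.mk.injEq, true_and, and_true]
    omega
  · rintro ⟨n, i⟩ hp
    simp only [stn, Finset.mem_filter, Finset.mem_product, Finset.mem_range] at hp
    obtain ⟨⟨hn, hi⟩, hS, hv, hs⟩ := hp
    have hi0 : i ≠ 0 := by have := hv.1; omega
    have h2 : 2 ^ lg i ≤ i := Nat.pow_log_le_self 2 hi0
    have e : 2 ^ lg i + (i - 2 ^ lg i) = i := by omega
    simp only [e]

theorem dec (hPRT : T_PRT) (hLAB : T_LAB) (hCNT : T_CNT) (hCNB : T_CNB) : T_DEC := by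
  classical
  intro S M w hw
  obtain ⟨-, -, -, hG, hG0, hsg⟩ := hLAB
  have hwz : ∀ z : ℤ, ‖w ^ z‖ = 1 := by
    intro z
    rw [norm_zpow, hw, one_zpow]
  rw [hPRT S (fun z => GG S z * w ^ z) (fun z hz => by simp only [hG0 S z hz, zero_mul]) M]
  -- the error
  let E : ℕ → ℕ → ℂ := fun n i => ∑ z ∈ RS n i,
    if (i = 1 ∧ s1 n i z = s2 n i z ∧ s1 n i z = s3 n i z) then wt n i z * w ^ z else 0
  let W : ℕ → ℕ → ℂ := fun n i =>
    ∑ z ∈ Finset.Ico (NN (slot n i) : ℤ) (2 * NN (slot n i)), wx n i z * w ^ z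
  have h1 : ∀ p ∈ stn S M, ∑ z ∈ RS p.1 p.2, GG S z * w ^ z = W p.1 p.2 - E p.1 p.2 := by
    rintro ⟨n, i⟩ hp
    simp only [stn, Finset.mem_filter, Finset.mem_product, Finset.mem_range] at hp
    obtain ⟨⟨hn, hi⟩, hS, hv, hs⟩ := hp
    simp only [W, E]
    rw [wx_slot n i hv w, ← Finset.sum_sub_distrib]
    refine Finset.sum_congr rfl fun z hz => ?_
    have hr : Reg n i z := (Finset.mem_filter.mp hz).2
    rw [hG S n i z hS hr]
    split_ifs <;> ring
  rw [Finset.sum_congr rfl h1, Finset.sum_sub_distrib, stn_sum S M W]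
  have hE : ‖∑ p ∈ stn S M, E p.1 p.2‖ ≤ 2 := by
    have hE1 : ∀ p ∈ stn S M, ‖E p.1 p.2‖ ≤ if p = (0, 1) then 2 else 0 := by
      rintro ⟨n, i⟩ hp
      simp only [stn, Finset.mem_filter, Finset.mem_product, Finset.mem_range] at hp
      obtain ⟨⟨hn, hi⟩, hS, hv, hs⟩ := hp
      by_cases hi1 : i = 1
      · subst hi1
        have hn0 : n = 0 := by
          have := hv.2
          simp [lg] at this
          exact this
        subst hn0
        rw [if_pos rfl]
        obtain ⟨hpos, -, -⟩ := hCNB 0 1 hv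
        have hc0 : (0 : ℝ) < cnt 0 1 := by exact_mod_cast hpos
        have hl : lvl 0 1 = 0 := by simp [lvl, lg]
        simp only [E]
        rw [← Finset.sum_filter]
        refine (norm_sum_le _ _).trans ?_
        have hterm : ∀ z ∈ (RS 0 1).filter (fun z => True ∧ s1 0 1 z = s2 0 1 z ∧
            s1 0 1 z = s3 0 1 z), ‖wt 0 1 z * w ^ z‖ ≤ 1 / (cnt 0 1 : ℝ) := by
          intro z hz
          obtain ⟨hz1, -⟩ := Finset.mem_filter.mp hz
          have hr : Reg 0 1 z := (Finset.mem_filter.mp hz1).2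
          obtain ⟨ha, hb, hc⟩ := hsg 0 1 z hr
          rw [norm_mul, hwz, mul_one, wt, hl, pow_zero]
          have : ‖((s1 0 1 z * s2 0 1 z * s3 0 1 z : ℤ) : ℂ)‖ = 1 := by
            rcases ha with ha | ha <;> rcases hb with hb | hb <;> rcases hc with hc | hc <;>
              rw [ha, hb, hc] <;> norm_num
          rw [norm_mul, this, mul_one, norm_neg, norm_div, norm_one, Complex.norm_natCast]
        refine (Finset.sum_le_card_nsmul _ _ _ hterm).trans ?_
        rw [nsmul_eq_mul]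
        have hcard : ((RS 0 1).filter (fun z => True ∧ s1 0 1 z = s2 0 1 z ∧
            s1 0 1 z = s3 0 1 z)).card ≤ 2 * cnt 0 1 := by
          have hsub : (RS 0 1).filter (fun z => True ∧ s1 0 1 z = s2 0 1 z ∧
              s1 0 1 z = s3 0 1 z) ⊆ FA 0 1 1 ∪ FA 0 1 (-1) := by
            intro z hz
            obtain ⟨hz1, -, h12, h13⟩ := Finset.mem_filter.mp hz
            have hr : Reg 0 1 z := (Finset.mem_filter.mp hz1).2
            obtain ⟨ha, hb, hc⟩ := hsg 0 1 z hr
            rcases ha with ha | ha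
            · refine Finset.mem_union_left _ (Finset.mem_filter.mpr ⟨hz1, ha, ?_, ?_⟩)
              · rw [← h12, ha]
              · rw [← h13, ha]
            · refine Finset.mem_union_right _ (Finset.mem_filter.mpr ⟨hz1, ha, ?_, ?_⟩)
              · rw [← h12, ha]
              · rw [← h13, ha]
          refine (Finset.card_le_card hsub).trans ((Finset.card_union_le _ _).trans ?_)
          rw [(hCNT 0 1 hv 1 (Or.inl rfl)).1, (hCNT 0 1 hv (-1) (Or.inr rfl)).1]
          omega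
        have : (((RS 0 1).filter (fun z => True ∧ s1 0 1 z = s2 0 1 z ∧
            s1 0 1 z = s3 0 1 z)).card : ℝ) ≤ 2 * cnt 0 1 := by exact_mod_cast hcard
        rw [mul_one_div, div_le_iff₀ hc0]
        exact this
      · have : E n i = 0 := by
          simp only [E, hi1, false_and, if_false, Finset.sum_const_zero]
        rw [this, norm_zero]
        split_ifs <;> norm_num
    refine (norm_sum_le _ _).trans ((Finset.sum_le_sum hE1).trans ?_)
    rw [Finset.sum_ite_eq']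
    split_ifs <;> norm_num
  have hW : ‖∑ n ∈ Finset.range M, ∑ k ∈ Finset.range M, (if n ∈ S then
        ∑ a ∈ (Finset.range M).filter (fun a => n < 2 ^ a ∧ k < 2 ^ a ∧ slot n (2 ^ a + k) < M),
          W n (2 ^ a + k)
      else 0)‖ ≤ ∑ n ∈ Finset.range M, ∑ k ∈ Finset.range M,
        ‖∑ a ∈ (Finset.range M).filter (fun a => n < 2 ^ a ∧ k < 2 ^ a ∧ slot n (2 ^ a + k) < M),
          W n (2 ^ a + k)‖ := by
    refine (norm_sum_le _ _).trans (Finset.sum_le_sum fun n _ => ?_)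
    refine (norm_sum_le _ _).trans (Finset.sum_le_sum fun k _ => ?_)
    split_ifs
    · exact le_rfl
    · rw [norm_zero]; exact norm_nonneg _
  have := norm_sub_le (∑ n ∈ Finset.range M, ∑ k ∈ Finset.range M, (if n ∈ S then
        ∑ a ∈ (Finset.range M).filter (fun a => n < 2 ^ a ∧ k < 2 ^ a ∧ slot n (2 ^ a + k) < M),
          W n (2 ^ a + k)
      else 0)) (∑ p ∈ stn S M, E p.1 p.2)
  refine this.trans ?_
  rw [add_comm (2 : ℝ)]
  exact add_le_add hW hE

end Pool.Agent.H24.SC
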