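import Pool.Agent.H85.SC.Targets

/-!
# Module STS
-/

namespace Pool.Agent.H24.SC

open Pool.Agent.H85.SC

theorem sts (hLAB : T_LAB) (hDSJ : T_DSJ) (hCNT : T_CNT) (hCNB : T_CNB) : T_STS := by
  classical
  intro S v a hbr n i hn hv
  obtain ⟨-, -, -, hG, -, hsg⟩ := hLAB
  rw [hDSJ.2.2 n i hv]
  obtain ⟨hpos, -, -⟩ := hCNB n i hv
  have hc0 : (cnt n i : ℂ) ≠ 0 := by exact_mod_cast hpos.ne'
  have h2 : ((2 : ℂ) ^ lvl n i) ≠ 0 := pow_ne_zero _ (by norm_num)
  have hhalf : ((1 : ℂ) / 2) ^ lvl n i = 1 / (2 : ℂ) ^ lvl n i := by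
    rw [div_pow, one_pow]
  have hconst : ∀ (F : Finset ℤ) (c : ℂ), (∀ z ∈ F, GG S z * pv v a n i z = c) →
      ∑ z ∈ F, GG S z * pv v a n i z = F.card * c := by
    intro F c h
    rw [Finset.sum_congr rfl h]
    simp
  have hsq : ∀ s : ℤ, s = 1 ∨ s = -1 → (s : ℂ) * s = 1 := by
    rintro s (rfl | rfl) <;> norm_num
  -- membership
  have hRS : ∀ z ∈ RS n i, Reg n i z := by
    intro z hz
    exact (Finset.mem_filter.mp hz).2
  have hFA : ∀ s : ℤ, s = 1 ∨ s = -1 → ∀ z ∈ FA n i s, Reg n i z ∧ s1 n i z = s ∧ s2 n i z = s ∧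
      s3 n i z = s ∧ GG S z = if i = 1 then 0 else -((2 : ℂ) ^ lvl n i / cnt n i) * s := by
    intro s hs z hz
    obtain ⟨hz1, h1, h2', h3⟩ := Finset.mem_filter.mp hz
    have hr := hRS z hz1
    refine ⟨hr, h1, h2', h3, ?_⟩
    rw [hG S n i z hn hr, h1, h2', h3]
    by_cases hi : i = 1
    · simp [hi]
    · simp only [hi, false_and, if_false, wt, h1, h2', h3]
      push_cast
      rw [hsq s hs, one_mul]
  have hFS : ∀ s : ℤ, s = 1 ∨ s = -1 → ∀ z ∈ FS n i s, Reg n i z ∧ s1 n i z = s ∧ s2 n i z = s ∧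
      s3 n i z = -s ∧ GG S z = ((2 : ℂ) ^ lvl n i / cnt n i) * s := by
    intro s hs z hz
    obtain ⟨hz1, h1, h2', h3⟩ := Finset.mem_filter.mp hz
    have hr := hRS z hz1
    refine ⟨hr, h1, h2', h3, ?_⟩
    have hne : ¬ (i = 1 ∧ s1 n i z = s2 n i z ∧ s1 n i z = s3 n i z) := by
      rintro ⟨-, -, h⟩
      rw [h1, h3] at h
      rcases hs with rfl | rfl <;> norm_num at h
    rw [hG S n i z hn hr, if_neg hne]
    simp only [wt, h1, h2', h3]
    push_cast
    have := hsq s hs
    linear_combination ((2 : ℂ) ^ lvl n i / cnt n i) * s * this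
  have hFD : ∀ s : ℤ, s = 1 ∨ s = -1 → ∀ z ∈ FD n i s, Reg n i z ∧
      (s1 n i z : ℂ) + s2 n i z = 0 ∧
      s3 n i z = s ∧ GG S z = ((2 : ℂ) ^ lvl n i / cnt n i) * s := by
    intro s hs z hz
    obtain ⟨hz1, h1, h3⟩ := Finset.mem_filter.mp hz
    have hr := hRS z hz1
    obtain ⟨ha, hb, -⟩ := hsg n i z hr
    have hsum : s1 n i z + s2 n i z = 0 := by
      rcases ha with ha | ha <;> rcases hb with hb | hb <;> rw [ha, hb] at h1 ⊢ <;>
        first | exact absurd rfl h1 | norm_num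
    have hprod : s1 n i z * s2 n i z = -1 := by
      rcases ha with ha | ha <;> rcases hb with hb | hb <;> rw [ha, hb] at h1 ⊢ <;>
        first | exact absurd rfl h1 | norm_num
    refine ⟨hr, by exact_mod_cast hsum, h3, ?_⟩
    have hne : ¬ (i = 1 ∧ s1 n i z = s2 n i z ∧ s1 n i z = s3 n i z) := by
      rintro ⟨-, h, -⟩
      exact h1 h
    rw [hG S n i z hn hr, if_neg hne]
    simp only [wt, hprod, h3]
    push_cast
    ring
  obtain ⟨cA1, cS1, cD1⟩ := hCNT n i hv 1 (Or.inl rfl)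
  obtain ⟨cA2, cS2, cD2⟩ := hCNT n i hv (-1) (Or.inr rfl)
  have hsrt : ∀ s : ℤ, s = 1 ∨ s = -1 → (s : ℂ) * s = 1 := hsq
  by_cases hP : ∃ k, n = v k ∧ i = 2 ^ lg i ∧ lg i < a k
  · -- stay mode
    have hpv : ∀ z, pv v a n i z = (1 / 2) ^ lvl n i * (((s1 n i z : ℂ) + s2 n i z) / 2) := by
      intro z
      rw [pv, if_pos hP]
    have eA : ∀ s : ℤ, s = 1 ∨ s = -1 → ∀ z ∈ FA n i s, GG S z * pv v a n i z =
        if i = 1 then 0 else -(1 / (cnt n i : ℂ)) := by
      intro s hs z hz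
      obtain ⟨-, h1, h2', h3, hg⟩ := hFA s hs z hz
      rw [hg, hpv, h1, h2', hhalf]
      by_cases hi : i = 1
      · simp [hi]
      · rw [if_neg hi, if_neg hi]
        have := hsq s hs
        field_simp
        linear_combination (-2 : ℂ) * this
    have eS : ∀ s : ℤ, s = 1 ∨ s = -1 → ∀ z ∈ FS n i s, GG S z * pv v a n i z =
        1 / (cnt n i : ℂ) := by
      intro s hs z hz
      obtain ⟨-, h1, h2', h3, hg⟩ := hFS s hs z hz
      rw [hg, hpv, h1, h2', hhalf]
      have := hsq s hs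
      field_simp
      linear_combination (2 : ℂ) * this
    have eD : ∀ s : ℤ, s = 1 ∨ s = -1 → ∀ z ∈ FD n i s, GG S z * pv v a n i z = 0 := by
      intro s hs z hz
      obtain ⟨-, h1, h3, hg⟩ := hFD s hs z hz
      rw [hpv, h1]
      simp
    rw [gA, gS, gD, hconst _ _ (eA 1 (Or.inl rfl)), hconst _ _ (eA (-1) (Or.inr rfl)),
      hconst _ _ (eS 1 (Or.inl rfl)), hconst _ _ (eS (-1) (Or.inr rfl)),
      hconst _ _ (eD 1 (Or.inl rfl)), hconst _ _ (eD (-1) (Or.inr rfl)), cA1, cA2, cS1, cS2, cD1,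
      cD2]
    by_cases hi : i = 1
    · simp only [hi, if_true]
      rw [hi] at hc0
      field_simp
      ring
    · simp only [hi, if_false]
      field_simp
      ring
  · by_cases hQ : ∃ k, n = v k ∧ lg i = a k
    · -- drop mode
      have hpv : ∀ z, pv v a n i z = (1 / 2) ^ lvl n i *
          (((s1 n i z : ℂ) + s2 n i z) / 4 + (s3 n i z : ℂ) / 2) := by
        intro z
        rw [pv, if_neg hP, if_pos hQ]
      have eA : ∀ s : ℤ, s = 1 ∨ s = -1 → ∀ z ∈ FA n i s, GG S z * pv v a n i z =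
          if i = 1 then 0 else -(1 / (cnt n i : ℂ)) := by
        intro s hs z hz
        obtain ⟨-, h1, h2', h3, hg⟩ := hFA s hs z hz
        rw [hg, hpv, h1, h2', h3, hhalf]
        by_cases hi : i = 1
        · simp [hi]
        · rw [if_neg hi, if_neg hi]
          have := hsq s hs
          field_simp
          linear_combination (-8 : ℂ) * this
      have eS : ∀ s : ℤ, s = 1 ∨ s = -1 → ∀ z ∈ FS n i s, GG S z * pv v a n i z = 0 := by
        intro s hs z hz
        obtain ⟨-, h1, h2', h3, hg⟩ := hFS s hs z hz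
        rw [hg, hpv, h1, h2', h3]
        push_cast
        ring
      have eD : ∀ s : ℤ, s = 1 ∨ s = -1 → ∀ z ∈ FD n i s, GG S z * pv v a n i z =
          1 / (2 * (cnt n i : ℂ)) := by
        intro s hs z hz
        obtain ⟨-, h1, h3, hg⟩ := hFD s hs z hz
        rw [hg, hpv, h1, h3, hhalf]
        have := hsq s hs
        field_simp
        linear_combination (4 : ℂ) * this
      rw [gA, gS, gD, hconst _ _ (eA 1 (Or.inl rfl)), hconst _ _ (eA (-1) (Or.inr rfl)),
        hconst _ _ (eS 1 (Or.inl rfl)), hconst _ _ (eS (-1) (Or.inr rfl)),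
        hconst _ _ (eD 1 (Or.inl rfl)), hconst _ _ (eD (-1) (Or.inr rfl)), cA1, cA2, cS1, cS2, cD1,
        cD2]
      push_cast
      by_cases hi : i = 1
      · simp only [hi, if_true]
        rw [hi] at hc0
        field_simp
        ring
      · simp only [hi, if_false]
        field_simp
        ring
    · have hpv : ∀ z, pv v a n i z = 0 := by
        intro z
        rw [pv, if_neg hP, if_neg hQ]
      have hi : i ≠ 1 := by
        intro hi
        have hn0 : n = 0 := by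
          have := hv.2
          rw [hi] at this
          simp [lg] at this
          exact this
        have hl : lg i = 0 := by rw [hi]; simp [lg]
        rcases Nat.eq_zero_or_pos (a 0) with h0 | h0
        · exact hQ ⟨0, by rw [hn0, hbr.1], by rw [hl, h0]⟩
        · exact hP ⟨0, by rw [hn0, hbr.1], by rw [hl, hi]; rfl, by rw [hl]; exact h0⟩
      rw [if_neg hi]
      simp [gA, gS, gD, hpv]

end Pool.Agent.H24.SC
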